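import Mathlib

set_option autoImplicit false

namespace Pool.Agent.Results.MP_cc1c4a_pr.Exists

open MeasureTheory ProbabilityTheory Filter Topology
open scoped ENNReal

/-- The graph `ℤ^d`: two points are adjacent iff their Euclidean distance is `1`. -/
def grid (d : ℕ) : SimpleGraph (Fin d → ℤ) where
  Adj x y := ∑ i, (x i - y i) ^ 2 = 1
  symm := ⟨fun x y h => by
    rw [← h]; exact Finset.sum_congr rfl fun i _ => by ring⟩
  loopless := ⟨fun x h => by simp at h⟩

/-- Bond configurations `{0,1}^E` (`true` means open), with the product sigma-algebra. -/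
abbrev Config (d : ℕ) : Type := (grid d).edgeSet → Bool

/-- The subgraph formed by the open edges. -/
def openGraph {d : ℕ} (ω : Config d) : SimpleGraph (Fin d → ℤ) :=
  SimpleGraph.fromEdgeSet {e | ∃ h : e ∈ (grid d).edgeSet, ω ⟨e, h⟩ = true}

/-- Some cluster (connected component of the open subgraph) is infinite. -/
def HasInfiniteCluster {d : ℕ} (ω : Config d) : Prop :=
  ∃ v, {w | (openGraph ω).Reachable v w}.Infinite

/-- The law is invariant under every graph automorphism of `ℤ^d`. -/
def Invariant {d : ℕ} (μ : Measure (Config d)) : Prop :=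
  ∀ φ : grid d ≃g grid d, μ.map (fun ω e => ω (φ.mapEdgeSet e)) = μ

/-- The sigma-algebra generated by the states of all edges other than `e`. -/
@[reducible] def sigmaOff {d : ℕ} (e : (grid d).edgeSet) : MeasurableSpace (Config d) :=
  MeasurableSpace.comap (fun (ω : Config d) (f : {f : (grid d).edgeSet // f ≠ e}) => ω f) inferInstance

/-- Finite energy: almost surely `0 < P(e open | all other edges) < 1`, for every edge `e`. -/
def FiniteEnergy {d : ℕ} (μ : Measure (Config d)) : Prop :=
  ∀ e : (grid d).edgeSet, ∀ᵐ ω ∂μ,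
    0 < condExp (sigmaOff e) μ (Set.indicator {ω' | ω' e = true} fun _ => (1 : ℝ)) ω ∧
      condExp (sigmaOff e) μ (Set.indicator {ω' | ω' e = true} fun _ => (1 : ℝ)) ω < 1

/-- Independent uniform `[0,1]` labels on the edges. -/
noncomputable def labels (d : ℕ) : Measure ((grid d).edgeSet → unitInterval) :=
  Measure.infinitePi fun _ => volume

/-- The `p`-thinning: an open edge is kept iff its label is `< p`. -/
noncomputable def thin {d : ℕ} (p : ℝ) (ω : Config d) (u : (grid d).edgeSet → unitInterval) :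
    Config d :=
  fun e => ω e && decide ((u e : ℝ) < p)

section auto
variable {d : ℕ}

def N (v : Fin d → ℤ) : ℤ := ∑ i, v i ^ 2
def ip (v w : Fin d → ℤ) : ℤ := ∑ i, v i * w i

lemma adj_iff (x y : Fin d → ℤ) : (grid d).Adj x y ↔ N (x - y) = 1 := Iff.rfl

lemma N_nonneg (v : Fin d → ℤ) : 0 ≤ N v := Finset.sum_nonneg fun _ _ => sq_nonneg _

lemma N_eq_zero {v : Fin d → ℤ} (h : N v = 0) : v = 0 := by
  funext i
  have := (Finset.sum_eq_zero_iff_of_nonneg (fun i _ => sq_nonneg (v i))).1 h i (Finset.mem_univ i)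
  simpa using this

lemma N_neg (v : Fin d → ℤ) : N (-v) = N v := by simp [N]

lemma N_sub (v w : Fin d → ℤ) : N (v - w) = N v - 2 * ip v w + N w := by
  simp only [N, ip, Finset.mul_sum, ← Finset.sum_sub_distrib, ← Finset.sum_add_distrib, Pi.sub_apply]
  exact Finset.sum_congr rfl fun i _ => by ring

lemma N_add (v w : Fin d → ℤ) : N (v + w) = N v + 2 * ip v w + N w := by
  simp only [N, ip, Finset.mul_sum, ← Finset.sum_add_distrib, Pi.add_apply]
  exact Finset.sum_congr rfl fun i _ => by ring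

lemma ip_add (v w a : Fin d → ℤ) : ip (v + w) a = ip v a + ip w a := by
  simp only [ip, ← Finset.sum_add_distrib, Pi.add_apply]
  exact Finset.sum_congr rfl fun i _ => by ring

lemma ip_self (a : Fin d → ℤ) : ip a a = N a := by simp [ip, N, sq]

lemma unit_cases {p q a b : Fin d → ℤ} (hp : N p = 1) (hq : N q = 1) (ha : N a = 1) (hb : N b = 1)
    (hab : a ≠ b) (h : p + a = q + b) : p + a = 0 ∨ p + a = a + b := by
  by_cases h0 : p + a = 0
  · exact Or.inl h0
  right
  have h1 : N (p + a) ≠ 0 := fun h => h0 (N_eq_zero h)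
  have h2 : N (b - a) ≠ 0 := fun h => hab (sub_eq_zero.1 (N_eq_zero h)).symm
  have h3 := N_nonneg (p + a)
  have h4 := N_nonneg (b - a)
  have h5 := N_nonneg (q - a)
  have h6 : ip (p + a) a = ip (q + b) a := by rw [h]
  rw [ip_add, ip_add, ip_self] at h6
  rw [N_add] at h1 h3
  rw [N_sub] at h2 h4 h5
  have h7 : N (q - a) = 0 := by rw [N_sub]; omega
  have h8 : q = a := sub_eq_zero.1 (N_eq_zero h7)
  rw [h, h8]

lemma common {x a b z : Fin d → ℤ} (ha : N a = 1) (hb : N b = 1) (hab : a ≠ b)
    (h1 : (grid d).Adj z (x + a)) (h2 : (grid d).Adj z (x + b)) : z = x ∨ z = x + a + b := by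
  rcases unit_cases (p := z - (x + a)) (q := z - (x + b)) h1 h2 ha hb hab (by abel) with h | h
  · left; rw [← sub_eq_zero, ← h]; abel
  · right
    have : z = x + (z - (x + a) + a) := by abel
    rw [this, h]; abel

lemma adj_add (x : Fin d → ℤ) {a : Fin d → ℤ} (ha : N a = 1) : (grid d).Adj (x + a) x := by
  rw [adj_iff]; simpa using ha

lemma E1 (φ : grid d ≃g grid d) (x : Fin d → ℤ) {a b : Fin d → ℤ} (ha : N a = 1) (hb : N b = 1)
    (hab : a ≠ b) : φ (x + a + b) = φ (x + a) + φ (x + b) - φ x := by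
  have ha' : N (φ (x + a) - φ x) = 1 := φ.map_rel_iff.2 (adj_add x ha)
  have hb' : N (φ (x + b) - φ x) = 1 := φ.map_rel_iff.2 (adj_add x hb)
  have hab' : φ (x + a) - φ x ≠ φ (x + b) - φ x := fun h =>
    hab (add_left_cancel (φ.injective (sub_left_injective h)))
  by_cases h0 : x + a + b = x
  · set z := φ.symm (φ (x + a) + φ (x + b) - φ x) with hz
    have hz' : φ z = φ (x + a) + φ (x + b) - φ x := by rw [hz]; simp
    have h1 : (grid d).Adj z (x + a) := by
      rw [← φ.map_rel_iff, hz', adj_iff, ← hb']; congr 1; abel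
    have h2 : (grid d).Adj z (x + b) := by
      rw [← φ.map_rel_iff, hz', adj_iff, ← ha']; congr 1; abel
    rcases common ha hb hab h1 h2 with h | h
    · rw [← hz', h, h0]
    · rw [← hz', h]
  · have h1 : (grid d).Adj (φ (x + a + b)) (φ x + (φ (x + a) - φ x)) := by
      rw [add_sub_cancel, φ.map_rel_iff]; exact adj_add _ hb
    have h2 : (grid d).Adj (φ (x + a + b)) (φ x + (φ (x + b) - φ x)) := by
      rw [add_sub_cancel, φ.map_rel_iff, add_right_comm]; exact adj_add _ ha
    rcases common ha' hb' hab' h1 h2 with h | h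
    · exact absurd (φ.injective h) h0
    · rw [h]; abel

lemma E2 (φ : grid d ≃g grid d) (x : Fin d → ℤ) {a b : Fin d → ℤ} (ha : N a = 1) (hb : N b = 1) :
    φ (x + b + a) - φ (x + b) = φ (x + a) - φ x := by
  by_cases hab : a = b
  · subst hab
    have hne : a ≠ -a := by
      intro h
      have : a = 0 := by
        funext i
        have := congrFun h i
        simp only [Pi.neg_apply] at this
        simp only [Pi.zero_apply]; omega
      rw [this] at ha; simp [N] at ha
    have := E1 φ (x + a) ha (by rw [N_neg]; exact ha) hne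
    have e1 : x + a + a + -a = x + a := by abel
    have e2 : x + a + -a = x := by abel
    rw [e1, e2] at this
    linear_combination (exp := 1) -this
  · rw [add_right_comm, E1 φ x ha hb hab]; abel

def u (i : Fin d) : Fin d → ℤ := Pi.single i 1

lemma N_u (i : Fin d) : N (u i) = 1 := by
  simp [N, u, Pi.single_apply]

lemma const_of_step {T : Type} (f : (Fin d → ℤ) → T) (h : ∀ x i, f (x + u i) = f x) (x : Fin d → ℤ) :
    f x = f 0 := by
  have h1 : ∀ (i : Fin d) (n : ℤ) (x : Fin d → ℤ), f (x + n • u i) = f x := by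
    intro i n
    induction n using Int.induction_on with
    | zero => simp
    | succ n ih => intro x; rw [add_smul, one_smul, ← add_assoc, h, ih]
    | pred n ih =>
      intro x
      rw [← h _ i, ← ih x]; congr 1; rw [sub_smul, one_smul]; abel
  have h2 : ∀ s : Finset (Fin d), f (∑ i ∈ s, x i • u i) = f 0 := by
    intro s
    induction s using Finset.induction_on with
    | empty => simp
    | insert a s ha ih => rw [Finset.sum_insert ha, add_comm, h1, ih]
  rw [← h2 Finset.univ]
  congr 1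
  funext j
  simp [u, Finset.sum_apply, Pi.single_apply]

lemma unit_struct {v : Fin d → ℤ} (h : N v = 1) : ∃ s, v s ^ 2 = 1 ∧ ∀ t, t ≠ s → v t = 0 := by
  have h1 : ∃ s, v s ≠ 0 := by
    by_contra h1
    push Not at h1
    simp [N, h1] at h
  obtain ⟨s, hs⟩ := h1
  have h2 : N v = v s ^ 2 + ∑ t ∈ Finset.univ.erase s, v t ^ 2 :=
    (Finset.add_sum_erase _ _ (Finset.mem_univ s)).symm
  have h3 : 0 < v s ^ 2 := by positivity
  have h4 : 0 ≤ ∑ t ∈ Finset.univ.erase s, v t ^ 2 := Finset.sum_nonneg fun _ _ => sq_nonneg _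
  refine ⟨s, by omega, fun t ht => ?_⟩
  have h5 : ∑ t ∈ Finset.univ.erase s, v t ^ 2 = 0 := by omega
  have := (Finset.sum_eq_zero_iff_of_nonneg (fun i _ => sq_nonneg (v i))).1 h5 t (by simp [ht])
  simpa using this

lemma auto_form (φ : grid d ≃g grid d) : ∃ (σ : Equiv.Perm (Fin d)) (ε : Fin d → ℤ),
    (∀ j, ε j ^ 2 = 1) ∧ ∀ x j, φ x j = φ 0 j + ε j * x (σ j) := by
  set L : Fin d → Fin d → ℤ := fun i => φ (u i) - φ 0 with hL
  have hstep : ∀ x i, φ (x + u i) = φ x + L i := by
    intro x i
    have := const_of_step (fun y => φ (y + u i) - φ y) (fun y k => E2 φ y (N_u i) (N_u k)) x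
    simp only [zero_add] at this
    rw [hL]; simp only; rw [← this]; abel
  have hform : ∀ x, φ x = φ 0 + ∑ i, x i • L i := by
    intro x
    have := const_of_step (fun y => φ y - ∑ i, y i • L i) (by
      intro y k
      rw [hstep]
      simp only [Pi.add_apply, add_smul, Finset.sum_add_distrib, u, Pi.single_apply, ite_smul, one_smul,
        zero_smul, Finset.sum_ite_eq', Finset.mem_univ, if_true]
      abel) x
    simp only [Pi.zero_apply, zero_smul, Finset.sum_const_zero, sub_zero] at this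
    rw [← this]; abel
  have hLN : ∀ i, N (L i) = 1 := fun i => by
    have := φ.map_rel_iff.2 (adj_add 0 (N_u i))
    rwa [zero_add] at this
  choose τ hτ1 hτ2 using fun i => unit_struct (hLN i)
  have hinj : Function.Injective τ := by
    intro i k hik
    by_contra hne
    have h1 := hτ1 i
    have h2 := hτ1 k
    rw [← hik] at h2
    have h3 : L i (τ i) = L k (τ i) ∨ L i (τ i) = -L k (τ i) := by
      apply sq_eq_sq_iff_eq_or_eq_neg.1; rw [h1, h2]
    rcases h3 with h3 | h3
    · have h4 : L i = L k := by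
        funext t
        by_cases ht : t = τ i
        · rw [ht, h3]
        · rw [hτ2 i t ht, hτ2 k t (hik ▸ ht)]
      have h5 : u i = u k := φ.injective (sub_left_injective h4)
      have := congrFun h5 i
      simp [u, hne] at this
    · have h4 : L i + L k = 0 := by
        funext t
        by_cases ht : t = τ i
        · rw [ht, Pi.add_apply, h3]; simp
        · rw [Pi.add_apply, hτ2 i t ht, hτ2 k t (hik ▸ ht)]; simp
      have h5 : φ (0 + u i + u k) = φ 0 := by rw [hstep, hstep, add_assoc, h4, add_zero]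
      have := congrFun (φ.injective h5) i
      simp [u, hne] at this
  set e := Equiv.ofBijective τ (Finite.injective_iff_bijective.1 hinj) with he
  have he' : ∀ j, τ (e.symm j) = j := fun j => e.apply_symm_apply j
  refine ⟨e.symm, fun j => L (e.symm j) j, fun j => ?_, fun x j => ?_⟩
  · have := hτ1 (e.symm j)
    rwa [he'] at this
  · rw [hform x, Pi.add_apply, Finset.sum_apply, Finset.sum_eq_single (e.symm j)]
    · simp [mul_comm]
    · intro i _ hi
      rw [Pi.smul_apply, hτ2 i j, smul_zero]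
      intro h
      apply hi
      apply hinj
      rw [he', h]
    · simp

end auto

section geom
variable {d : ℕ}

abbrev K : Type := ℤ_[3]

noncomputable def M (e : Sym2 (Fin d → ℤ)) (c : Fin d → K) : Fin d → K :=
  Sym2.lift ⟨fun x y i => ((x i + y i : ℤ) : K) - 2 * c i, fun x y => by
    funext i; simp only [add_comm]⟩ e

def D (e : Sym2 (Fin d → ℤ)) : Fin d → ℤ :=
  Sym2.lift ⟨fun x y i => (x i - y i) ^ 2, fun x y => by funext i; ring⟩ e

noncomputable def al (e : Sym2 (Fin d → ℤ)) (c : Fin d → K) : ℝ :=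
  ‖fun i => M e c i * ((D e i : ℤ) : K)‖

noncomputable def be (e : Sym2 (Fin d → ℤ)) (c : Fin d → K) : ℝ :=
  ‖fun i => M e c i * ((1 - D e i : ℤ) : K)‖

noncomputable def rr (e : Sym2 (Fin d → ℤ)) (c : Fin d → K) : ℝ :=
  (min (al e c) (be e c)) ^ (d + 1) / 2

def Step (s : Fin d) (x y : Fin d → ℤ) : Prop := (x s - y s) ^ 2 = 1 ∧ ∀ t, t ≠ s → x t = y t

lemma step_of_adj {x y : Fin d → ℤ} (h : (grid d).Adj x y) : ∃ s, Step s x y := by
  obtain ⟨s, h1, h2⟩ := unit_struct (v := x - y) h
  exact ⟨s, h1, fun t ht => sub_eq_zero.1 (h2 t ht)⟩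

lemma adj_of_step {s : Fin d} {x y : Fin d → ℤ} (h : Step s x y) : (grid d).Adj x y := by
  show ∑ i, (x i - y i) ^ 2 = 1
  rw [Finset.sum_eq_single s, h.1]
  · intro t _ ht; rw [h.2 t ht]; simp
  · simp

lemma norm_two : ‖(2 : K)‖ = 1 := by
  have h : ¬ ‖((2 : ℤ) : K)‖ < 1 := by
    rw [PadicInt.norm_int_lt_one_iff_dvd]; norm_num
  have h2 := PadicInt.norm_le_one ((2 : ℤ) : K)
  push_cast at h h2
  linarith [not_lt.1 h]

lemma al_eq {s : Fin d} {x y : Fin d → ℤ} (h : Step s x y) (c : Fin d → K) :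
    al s(x, y) c = ‖((x s + y s : ℤ) : K) - 2 * c s‖ := by
  have : (fun i => M s(x, y) c i * ((D s(x, y) i : ℤ) : K)) =
      Pi.single s (((x s + y s : ℤ) : K) - 2 * c s) := by
    funext i
    by_cases hi : i = s
    · subst hi; simp only [M, D, Sym2.lift_mk, h.1, Pi.single_eq_same]; simp
    · simp only [M, D, Sym2.lift_mk, h.2 i hi, Pi.single_eq_of_ne hi]; simp
  rw [al, this, Pi.norm_single]

lemma be_le_iff {s : Fin d} {x y : Fin d → ℤ} (h : Step s x y) (c : Fin d → K) {ρ : ℝ} (hρ : 0 ≤ ρ) :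
    be s(x, y) c ≤ ρ ↔ ∀ t, t ≠ s → ‖((x t : ℤ) : K) - c t‖ ≤ ρ := by
  rw [be, pi_norm_le_iff_of_nonneg hρ]
  have h1 : ∀ t, t ≠ s → ‖M s(x, y) c t * ((1 - D s(x, y) t : ℤ) : K)‖ = ‖((x t : ℤ) : K) - c t‖ := by
    intro t ht
    simp only [M, D, Sym2.lift_mk, ← h.2 t ht]
    have : (((x t + x t : ℤ) : K) - 2 * c t) * ((1 - (x t - x t) ^ 2 : ℤ) : K) =
        2 * (((x t : ℤ) : K) - c t) := by push_cast; ring
    rw [this, norm_mul, norm_two, one_mul]
  constructor
  · intro H t ht; rw [← h1 t ht]; exact H t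
  · intro H t
    by_cases ht : t = s
    · subst ht
      simp only [D, Sym2.lift_mk, h.1]; simpa using hρ
    · rw [h1 t ht]; exact H t ht

def Generic (c : Fin d → K) : Prop := ∀ (i : Fin d) (k : ℤ), (k : K) - 2 * c i ≠ 0

lemma rr_pos (hd : 2 ≤ d) {c : Fin d → K} (hc : Generic c) (e : (grid d).edgeSet) :
    0 < al e.1 c ∧ 0 < rr e.1 c := by
  obtain ⟨e, he⟩ := e
  induction e using Sym2.ind with
  | _ x y =>
  obtain ⟨s, hs⟩ := step_of_adj he
  have h1 : 0 < al s(x, y) c := by rw [al_eq hs]; exact norm_pos_iff.2 (hc _ _)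
  have h2 : 0 < be s(x, y) c := by
    by_contra h2
    have : Nontrivial (Fin d) := Fin.nontrivial_iff_two_le.2 hd
    obtain ⟨t, ht⟩ := exists_ne s
    have h3 := (be_le_iff hs c le_rfl).1 (not_lt.1 h2) t ht
    have h4 : ((x t : ℤ) : K) - c t = 0 := norm_le_zero_iff.1 h3
    apply hc t (2 * x t)
    push_cast
    linear_combination 2 * h4
  have h3 : 0 < min (al s(x, y) c) (be s(x, y) c) := lt_min h1 h2
  exact ⟨h1, by unfold rr; positivity⟩

lemma rr_le (e : Sym2 (Fin d → ℤ)) (c : Fin d → K) : rr e c ≤ 1 / 2 := by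
  have h1 : al e c ≤ 1 := (pi_norm_le_iff_of_nonneg zero_le_one).2 fun i => PadicInt.norm_le_one _
  have h2 : 0 ≤ min (al e c) (be e c) := le_min (norm_nonneg _) (norm_nonneg _)
  have h3 : (min (al e c) (be e c)) ^ (d + 1) ≤ 1 := pow_le_one₀ h2 ((min_le_left _ _).trans h1)
  unfold rr; linarith

noncomputable def ρ (j : ℕ) : ℝ := (3 : ℝ) ^ (-(j : ℤ))

lemma ρ_pos (j : ℕ) : 0 < ρ j := by unfold ρ; positivity

lemma ρ_eq (j : ℕ) : ρ j = (1 / 3) ^ j := by simp [ρ]

lemma ρ_anti (j : ℕ) : ρ (j + 1) ≤ ρ j := by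
  rw [ρ_eq, ρ_eq]; exact pow_le_pow_of_le_one (by norm_num) (by norm_num) (Nat.le_succ j)

lemma ρ_tendsto : Tendsto ρ atTop (𝓝 0) := by
  have : ρ = fun j => (1 / 3 : ℝ) ^ j := funext ρ_eq
  rw [this]
  exact tendsto_pow_atTop_nhds_zero_of_lt_one (by norm_num) (by norm_num)

lemma norm_int_le (k : ℤ) (j : ℕ) : ‖(k : K)‖ ≤ ρ j ↔ (3 ^ j : ℤ) ∣ k := by
  have := PadicInt.norm_int_le_pow_iff_dvd (p := 3) (k := k) (n := j)
  simpa [ρ] using this

lemma ρ_le_of_not {x : K} {j : ℕ} (h : ¬ ‖x‖ ≤ ρ (j + 1)) : ρ j ≤ ‖x‖ := by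
  have := PadicInt.norm_le_pow_iff_norm_lt_pow_add_one x (-((j + 1 : ℕ) : ℤ))
  have e : -((j + 1 : ℕ) : ℤ) + 1 = -(j : ℤ) := by push_cast; ring
  rw [e] at this
  by_contra h2
  exact h (by simpa [ρ] using this.2 (by simpa [ρ] using not_le.1 h2))

lemma nadd {x y : K} {r : ℝ} (hx : ‖x‖ ≤ r) (hy : ‖y‖ ≤ r) : ‖x + y‖ ≤ r :=
  (PadicInt.nonarchimedean x y).trans (max_le hx hy)

lemma nsub {x y : K} {r : ℝ} (hx : ‖x‖ ≤ r) (hy : ‖y‖ ≤ r) : ‖x - y‖ ≤ r := by
  rw [sub_eq_add_neg]; exact nadd hx (by rwa [norm_neg])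

lemma ntwo {x : K} {r : ℝ} (hx : ‖x‖ ≤ r) : ‖2 * x‖ ≤ r := by rwa [norm_mul, norm_two, one_mul]

def hh (j : ℕ) : ℤ := (3 ^ j - 1) / 2

lemma hh_spec (j : ℕ) : 2 * hh j + 1 = 3 ^ j := by
  have : Odd ((3 : ℤ) ^ j) := Odd.pow (by decide)
  obtain ⟨k, hk⟩ := this
  unfold hh; omega

lemma hh_nonneg (j : ℕ) : 0 ≤ hh j := by
  have := hh_spec j
  have : (0 : ℤ) < 3 ^ j := by positivity
  omega

def IsC (j : ℕ) (v : Fin d → ℤ) (c : Fin d → K) (z : Fin d → ℤ) : Prop :=
  ∀ i, ‖((z i : ℤ) : K) - c i‖ ≤ ρ j ∧ |v i - z i| ≤ hh j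

lemma exists_center (j : ℕ) (v : Fin d → ℤ) (c : Fin d → K) : ∃ z, IsC j v c z := by
  have : ∀ i, ∃ z : ℤ, ‖(z : K) - c i‖ ≤ ρ j ∧ |v i - z| ≤ hh j := by
    intro i
    have h1 : ‖c i - ((c i).appr j : K)‖ ≤ ρ j := by
      have := (PadicInt.norm_le_pow_iff_mem_span_pow _ j).2 (PadicInt.appr_spec j (c i))
      simpa [ρ] using this
    set a : ℤ := ((c i).appr j : ℤ) with ha
    have hpos : (0 : ℤ) < 3 ^ j := by positivity
    have h2 := Int.emod_nonneg (v i - a + hh j) hpos.ne'
    have h3 := Int.emod_lt_of_pos (v i - a + hh j) hpos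
    have h4 := Int.emod_add_mul_ediv (v i - a + hh j) (3 ^ j)
    refine ⟨a + 3 ^ j * ((v i - a + hh j) / 3 ^ j), ?_, ?_⟩
    · have h5 : ‖((3 ^ j * ((v i - a + hh j) / 3 ^ j) : ℤ) : K)‖ ≤ ρ j :=
        (norm_int_le _ _).2 (dvd_mul_right _ _)
      have h6 := nsub h5 h1
      convert h6 using 2
      rw [Int.cast_add, ha]; push_cast; ring
    · have := hh_spec j
      rw [abs_le]; constructor <;> omega
  choose z hz using this
  exact ⟨z, hz⟩

/-- the configuration built from the environment `c` and the labels -/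
noncomputable def X (z : (Fin d → K) × ((grid d).edgeSet → unitInterval)) : Config d :=
  fun e => decide (be e.1 z.1 ≤ al e.1 z.1 ↔ rr e.1 z.1 ≤ (z.2 e : ℝ))

def Good (U : (grid d).edgeSet → unitInterval) : Prop :=
  ∀ v : Fin d → ℤ, ∀ᶠ j in atTop, ∀ e : (grid d).edgeSet,
    (∃ x ∈ e.1, ∀ i, |x i - v i| ≤ 3 ^ (j + 1)) → ρ j ^ (d + 1) ≤ (U e : ℝ)

lemma X_iff {c : Fin d → K} {U : (grid d).edgeSet → unitInterval} {e : (grid d).edgeSet} {j : ℕ}
    (h1 : ρ j ^ (d + 1) ≤ (U e : ℝ)) (h2 : min (al e.1 c) (be e.1 c) ≤ ρ j) :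
    X (c, U) e = true ↔ be e.1 c ≤ al e.1 c := by
  have h3 : 0 ≤ min (al e.1 c) (be e.1 c) := le_min (norm_nonneg _) (norm_nonneg _)
  have h4 : (min (al e.1 c) (be e.1 c)) ^ (d + 1) ≤ ρ j ^ (d + 1) := pow_le_pow_left₀ h3 h2 _
  have h5 : 0 ≤ (min (al e.1 c) (be e.1 c)) ^ (d + 1) := pow_nonneg h3 _
  have h6 : rr e.1 c ≤ (U e : ℝ) := by unfold rr; linarith
  simp [X, h6]

lemma open_adj {ω : Config d} {x y : Fin d → ℤ} :
    (openGraph ω).Adj x y ↔ ∃ h : (grid d).Adj x y, ω ⟨s(x, y), h⟩ = true := by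
  rw [openGraph, SimpleGraph.fromEdgeSet_adj]
  constructor
  · rintro ⟨⟨h, h'⟩, -⟩; exact ⟨h, h'⟩
  · rintro ⟨h, h'⟩; exact ⟨⟨h, h'⟩, h.ne⟩

lemma reach_line (G : SimpleGraph (Fin d → ℤ)) (w : Fin d → ℤ) (s : Fin d) (a b : ℤ)
    (h : ∀ n, min a b ≤ n → n < max a b → G.Adj (Function.update w s n) (Function.update w s (n + 1))) :
    G.Reachable (Function.update w s a) (Function.update w s b) := by
  have key : ∀ a b : ℤ, a ≤ b → (∀ n, a ≤ n → n < b →
      G.Adj (Function.update w s n) (Function.update w s (n + 1))) →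
      G.Reachable (Function.update w s a) (Function.update w s b) := by
    intro a b hab
    induction b, hab using Int.le_induction with
    | base => intro _; rfl
    | succ n hn ih =>
      intro h
      exact (ih fun m h1 h2 => h m h1 (by omega)).trans (h n hn (by omega)).reachable
  rcases le_total a b with hab | hab
  · rw [min_eq_left hab, max_eq_right hab] at h; exact key a b hab h
  · rw [min_eq_right hab, max_eq_left hab] at h; exact (key b a hab h).symm

lemma reach_centers {c : Fin d → K} {U : (grid d).edgeSet → unitInterval} {j : ℕ} {z z' : Fin d → ℤ}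
    (hz : IsC j 0 c z) (hz' : IsC (j + 1) 0 c z')
    (hU : ∀ e : (grid d).edgeSet, (∃ x ∈ e.1, ∀ i, |x i - (0 : Fin d → ℤ) i| ≤ 3 ^ (j + 1)) →
      ρ j ^ (d + 1) ≤ (U e : ℝ)) : (openGraph (X (c, U))).Reachable z z' := by
  classical
  have e1 := hh_spec j
  have e2 := hh_spec (j + 1)
  have e3 : (3 : ℤ) ^ (j + 1) = 3 * 3 ^ j := by ring
  have e4 := hh_nonneg j
  have key : ∀ S : Finset (Fin d), (openGraph (X (c, U))).Reachable z (S.piecewise z' z) := by
    intro S
    induction S using Finset.induction_on with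
    | empty => simp
    | insert s S hs ih =>
      refine ih.trans ?_
      rw [Finset.piecewise_insert]
      set w := S.piecewise z' z with hw
      have hws : w = Function.update w s (z s) := by
        rw [← Finset.piecewise_eq_of_notMem S z' z hs, Function.update_eq_self]
      have hwt : ∀ t, ‖((w t : ℤ) : K) - c t‖ ≤ ρ j ∧ |w t| ≤ hh (j + 1) := by
        intro t
        have a1 := (hz t).2
        have a2 := (hz' t).2
        simp only [Pi.zero_apply, zero_sub, abs_neg] at a1 a2
        by_cases ht : t ∈ S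
        · rw [hw, Finset.piecewise_eq_of_mem _ _ _ ht]
          exact ⟨(hz' t).1.trans (ρ_anti j), a2⟩
        · rw [hw, Finset.piecewise_eq_of_notMem _ _ _ ht]
          exact ⟨(hz t).1, by omega⟩
      conv_lhs => rw [hws]
      refine reach_line _ w s _ _ fun n hn1 hn2 => ?_
      have hst : Step s (Function.update w s n) (Function.update w s (n + 1)) :=
        ⟨by simp, fun t ht => by simp [Function.update_of_ne ht]⟩
      have a1 := (hz s).2
      have a2 := (hz' s).2
      simp only [Pi.zero_apply, zero_sub, abs_neg, abs_le] at a1 a2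
      have hdvd : (3 ^ j : ℤ) ∣ z s - z' s := by
        rw [← norm_int_le]
        have := nsub (hz s).1 ((hz' s).1.trans (ρ_anti j))
        convert this using 2
        push_cast; ring
      obtain ⟨k, hk⟩ := hdvd
      have hpos : (0 : ℤ) < 3 ^ j := by positivity
      have hk1 : k < 2 := by
        by_contra hk1
        have : 3 ^ j * 2 ≤ 3 ^ j * k := mul_le_mul_of_nonneg_left (not_lt.1 hk1) hpos.le
        omega
      have hk2 : -2 < k := by
        by_contra hk2
        have : 3 ^ j * k ≤ 3 ^ j * (-2) := mul_le_mul_of_nonneg_left (not_lt.1 hk2) hpos.le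
        omega
      have hk3 : -3 ^ j ≤ z s - z' s ∧ z s - z' s ≤ 3 ^ j := by
        have : k = -1 ∨ k = 0 ∨ k = 1 := by omega
        rcases this with rfl | rfl | rfl <;> omega
      have hbe : be s(Function.update w s n, Function.update w s (n + 1)) c ≤ ρ j := by
        rw [be_le_iff hst c (ρ_pos j).le]
        intro t ht
        rw [Function.update_of_ne ht]; exact (hwt t).1
      have hal : ρ j ≤ al s(Function.update w s n, Function.update w s (n + 1)) c := by
        rw [al_eq hst]
        refine ρ_le_of_not fun h => ?_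
        simp only [Function.update_self] at h
        have h2 : (3 ^ (j + 1) : ℤ) ∣ n + (n + 1) - 2 * z' s := by
          rw [← norm_int_le]
          have := nsub h (ntwo (hz' s).1)
          convert this using 2
          push_cast; ring
        have h3 := Int.eq_zero_of_abs_lt_dvd h2 (by rw [abs_lt]; constructor <;> omega)
        omega
      have hnear : ∀ i, |Function.update w s n i - (0 : Fin d → ℤ) i| ≤ 3 ^ (j + 1) := by
        intro i
        simp only [Pi.zero_apply, sub_zero]
        by_cases hi : i = s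
        · rw [hi, Function.update_self, abs_le]; constructor <;> omega
        · rw [Function.update_of_ne hi]
          have := (hwt i).2
          omega
      generalize Function.update w s n = x at hst hbe hal hnear ⊢
      generalize Function.update w s (n + 1) = y at hst hbe hal ⊢
      have hX := X_iff (c := c) (U := U) (e := ⟨s(x, y), adj_of_step hst⟩) (j := j)
        (hU _ ⟨x, Sym2.mem_mk_left _ _, hnear⟩) ((min_le_right _ _).trans hbe)
      exact open_adj.2 ⟨adj_of_step hst, hX.2 (hbe.trans hal)⟩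
  simpa using key Finset.univ

lemma perc {c : Fin d → K} {U : (grid d).edgeSet → unitInterval} (hd : 2 ≤ d) (hc : Generic c)
    (hU : Good U) : HasInfiniteCluster (X (c, U)) := by
  choose z hz using fun j => exists_center j 0 c
  obtain ⟨J, hJ⟩ := eventually_atTop.1 (hU 0)
  have h1 : ∀ j, J ≤ j → (openGraph (X (c, U))).Reachable (z J) (z j) := by
    intro j hj
    induction j, hj using Nat.le_induction with
    | base => rfl
    | succ n hn ih => exact ih.trans (reach_centers (hz n) (hz (n + 1)) (hJ n hn))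
  refine ⟨z J, fun hfin => ?_⟩
  set i : Fin d := ⟨0, by omega⟩
  have h2 : ∀ w ∈ {w | (openGraph (X (c, U))).Reachable (z J) w},
      ∀ᶠ j in atTop, ρ j < ‖((w i : ℤ) : K) - c i‖ := by
    intro w _
    refine ρ_tendsto.eventually (gt_mem_nhds (norm_pos_iff.2 fun h => hc i (2 * w i) ?_))
    push_cast
    linear_combination 2 * h
  obtain ⟨j, hj1, hj2⟩ := (((eventually_all_finite hfin).2 h2).and (eventually_ge_atTop J)).exists
  exact absurd (hz j i).1 (not_le.2 (hj1 (z j) (h1 j hj2)))

def sg (b : Bool) : ℤ := if b then 1 else -1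

lemma gate_step (z : Fin d → ℤ) (h : ℤ) (s : Fin d) (b : Bool) :
    Step s (Function.update z s (z s + sg b * h)) (Function.update z s (z s + sg b * (h + 1))) :=
  ⟨by cases b <;> simp [sg], fun t ht => by simp [Function.update_of_ne ht]⟩

def gate (z : Fin d → ℤ) (h : ℤ) (sb : Fin d × Bool) : (grid d).edgeSet :=
  ⟨s(Function.update z sb.1 (z sb.1 + sg sb.2 * h), Function.update z sb.1 (z sb.1 + sg sb.2 * (h + 1))),
    adj_of_step (gate_step z h sb.1 sb.2)⟩

lemma al_le {s : Fin d} {x y z : Fin d → ℤ} {c : Fin d → K} {j : ℕ} (h : Step s x y)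
    (h1 : (3 ^ j : ℤ) ∣ x s + y s - 2 * z s) (h2 : ‖((z s : ℤ) : K) - c s‖ ≤ ρ j) :
    al s(x, y) c ≤ ρ j := by
  rw [al_eq h]
  have := nadd ((norm_int_le _ _).2 h1) (ntwo h2)
  convert this using 2
  push_cast; ring

lemma al_gate {v z : Fin d → ℤ} {c : Fin d → K} {j : ℕ} (hz : IsC j v c z) (sb : Fin d × Bool) :
    al (gate z (hh j) sb).1 c ≤ ρ j := by
  refine al_le (gate_step z (hh j) sb.1 sb.2) ⟨sg sb.2, ?_⟩ (hz sb.1).1
  simp only [Function.update_self]
  rw [← hh_spec]; ring

lemma blocked {c : Fin d → K} {U η : (grid d).edgeSet → unitInterval} {p : ℝ} {j : ℕ}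
    {v z : Fin d → ℤ} (hz : IsC j v c z)
    (hU : ∀ e : (grid d).edgeSet, (∃ x ∈ e.1, ∀ i, |x i - v i| ≤ 3 ^ (j + 1)) →
      ρ j ^ (d + 1) ≤ (U e : ℝ))
    (hη : ∀ sb, p ≤ (η (gate z (hh j) sb) : ℝ)) :
    {w | (openGraph (thin p (X (c, U)) η)).Reachable v w}.Finite := by
  have e1 := hh_spec j
  have e3 : (3 : ℤ) ^ (j + 1) = 3 * 3 ^ j := by ring
  have e4 := hh_nonneg j
  have hstep : ∀ x y, (∀ i, |x i - z i| ≤ hh j) → (openGraph (thin p (X (c, U)) η)).Adj x y →
      ∀ i, |y i - z i| ≤ hh j := by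
    intro x y hx hxy
    obtain ⟨hadj, hop⟩ := open_adj.1 hxy
    simp only [thin, Bool.and_eq_true, decide_eq_true_eq] at hop
    obtain ⟨s, hs⟩ := step_of_adj hadj
    by_contra hy
    have hys : ¬ |y s - z s| ≤ hh j := by
      intro h
      apply hy
      intro i
      by_cases hi : i = s
      · rw [hi]; exact h
      · rw [← hs.2 i hi]; exact hx i
    have hxs := hx s
    have h1 : x s - y s = 1 ∨ x s - y s = -1 := sq_eq_one_iff.1 hs.1
    rw [abs_le] at hys hxs
    obtain ⟨b, hb1, hb2⟩ : ∃ b, x s = z s + sg b * hh j ∧ y s = z s + sg b * (hh j + 1) := by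
      rcases h1 with h1 | h1
      · have : sg false = -1 := rfl
        exact ⟨false, by rw [this]; omega, by rw [this]; omega⟩
      · have : sg true = 1 := rfl
        exact ⟨true, by rw [this]; omega, by rw [this]; omega⟩
    have hal : al s(x, y) c ≤ ρ j := by
      refine al_le hs ⟨sg b, ?_⟩ (hz s).1
      rw [hb1, hb2, ← hh_spec]; ring
    have hX := (X_iff (j := j) (hU ⟨s(x, y), hadj⟩ ⟨x, Sym2.mem_mk_left _ _, fun i => ?_⟩)
      ((min_le_left _ _).trans hal)).1 hop.1
    · have hbe := (be_le_iff hs c (ρ_pos j).le).1 (hX.trans hal)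
      have hxt : ∀ t, t ≠ s → x t = z t := by
        intro t ht
        have h2 : (3 ^ j : ℤ) ∣ x t - z t := by
          rw [← norm_int_le]
          have := nsub (hbe t ht) (hz t).1
          convert this using 2
          push_cast; ring
        have h3 := Int.eq_zero_of_abs_lt_dvd h2 (by have := hx t; omega)
        omega
      have hx' : x = Function.update z s (z s + sg b * hh j) := by
        funext t
        by_cases ht : t = s
        · rw [ht, Function.update_self, hb1]
        · rw [Function.update_of_ne ht, hxt t ht]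
      have hy' : y = Function.update z s (z s + sg b * (hh j + 1)) := by
        funext t
        by_cases ht : t = s
        · rw [ht, Function.update_self, hb2]
        · rw [Function.update_of_ne ht, ← hs.2 t ht, hxt t ht]
      have he : (⟨s(x, y), hadj⟩ : (grid d).edgeSet) = gate z (hh j) (s, b) := by
        apply Subtype.ext
        simp only [gate]
        rw [← hx', ← hy']
      have := hη (s, b)
      rw [← he] at this
      exact absurd hop.2 (not_lt.2 this)
    · have a1 := hx i
      have a2 := (hz i).2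
      rw [abs_le] at a1 a2 ⊢
      constructor <;> omega
  refine (Set.finite_Icc (fun i => z i - hh j) (fun i => z i + hh j)).subset fun w hw => ?_
  have hw' : ∀ i, |w i - z i| ≤ hh j := by
    have hr := (SimpleGraph.reachable_iff_reflTransGen _ _).1 hw
    induction hr with
    | refl => exact fun i => (hz i).2
    | tail h1 h2 ih => exact hstep _ _ (ih ((SimpleGraph.reachable_iff_reflTransGen _ _).2 h1)) h2
  constructor <;> intro i <;> have := abs_le.1 (hw' i) <;> simp only <;> omega

end geom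

section prob
variable {d : ℕ}

noncomputable instance instMK : MeasurableSpace K := borel K
instance instBK : BorelSpace K := ⟨rfl⟩

noncomputable def H1 : Measure K := Measure.addHaarMeasure ⊤

instance instH1 : H1.IsAddHaarMeasure := by unfold H1; infer_instance

instance instH2 : IsProbabilityMeasure H1 :=
  ⟨by simpa [H1] using Measure.addHaarMeasure_self (K₀ := (⊤ : TopologicalSpace.PositiveCompacts K))⟩

instance instNe : (𝓝[≠] (0 : K)).NeBot := by
  have h1 : ‖(3 : K)‖ < 1 := by
    have := (PadicInt.norm_int_lt_one_iff_dvd (p := 3) 3).2 (by norm_num)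
    simpa using this
  have h2 := tendsto_pow_atTop_nhds_zero_of_norm_lt_one h1
  have h3 : Tendsto (fun n : ℕ => (3 : K) ^ n) atTop (𝓝[≠] 0) :=
    tendsto_nhdsWithin_iff.2 ⟨h2, Eventually.of_forall fun n => pow_ne_zero n (by norm_num)⟩
  exact h3.neBot

noncomputable def H (d : ℕ) : Measure (Fin d → K) := Measure.infinitePi fun _ => H1

instance instH3 : IsProbabilityMeasure (H d) := by unfold H; infer_instance
instance instL : IsProbabilityMeasure (labels d) := by unfold labels; infer_instance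

lemma ae_generic : ∀ᵐ c ∂H d, Generic c := by
  refine ae_all_iff.2 fun i => ae_all_iff.2 fun k => ?_
  have h1 : ∀ᵐ x ∂H1, (k : K) - 2 * x ≠ 0 := by
    rw [ae_iff]
    refine Set.Subsingleton.measure_zero (fun x hx y hy => ?_) _
    simp only [not_not, Set.mem_setOf_eq] at hx hy
    have : (2 : K) * x = 2 * y := by linear_combination hy - hx
    exact mul_left_cancel₀ (by norm_num) this
  exact (measurePreserving_eval_infinitePi (fun _ : Fin d => H1) i).quasiMeasurePreserving.ae h1

lemma meas_lt (t : ℝ) : MeasurableSet {x : unitInterval | (x : ℝ) < t} :=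
  measurableSet_lt measurable_subtype_coe measurable_const

lemma meas_ge (t : ℝ) : MeasurableSet {x : unitInterval | t ≤ (x : ℝ)} :=
  measurableSet_le measurable_const measurable_subtype_coe

lemma vol_lt {t : ℝ} (h0 : 0 ≤ t) (h1 : t ≤ 1) :
    volume {x : unitInterval | (x : ℝ) < t} = ENNReal.ofReal t :=
  unitInterval.volume_Iio ⟨t, h0, h1⟩

lemma vol_ge {t : ℝ} (h0 : 0 ≤ t) (h1 : t ≤ 1) :
    volume {x : unitInterval | t ≤ (x : ℝ)} = ENNReal.ofReal (1 - t) :=
  unitInterval.volume_Ici ⟨t, h0, h1⟩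

lemma labels_eval (e : (grid d).edgeSet) {T : Set unitInterval} (hT : MeasurableSet T) :
    labels d {U | U e ∈ T} = volume T :=
  (measurePreserving_eval_infinitePi (fun _ : (grid d).edgeSet => (volume : Measure unitInterval))
    e).measure_preimage hT.nullMeasurableSet

lemma edge_eq_gate (e : (grid d).edgeSet) {x : Fin d → ℤ} (hx : x ∈ e.1) : ∃ sb, e = gate x 0 sb := by
  obtain ⟨e, he⟩ := e
  obtain ⟨y, rfl⟩ := Sym2.mem_iff_exists.1 hx
  obtain ⟨s, hs⟩ := step_of_adj (x := x) (y := y) he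
  have h1 : x s - y s = 1 ∨ x s - y s = -1 := sq_eq_one_iff.1 hs.1
  obtain ⟨b, hb⟩ : ∃ b, y s = x s + sg b * (0 + 1) := by
    rcases h1 with h1 | h1
    · have : sg false = -1 := rfl
      exact ⟨false, by rw [this]; omega⟩
    · have : sg true = 1 := rfl
      exact ⟨true, by rw [this]; omega⟩
  refine ⟨(s, b), Subtype.ext ?_⟩
  have hy : y = Function.update x s (x s + sg b * (0 + 1)) := by
    funext t
    by_cases ht : t = s
    · rw [ht, Function.update_self, hb]
    · rw [Function.update_of_ne ht, hs.2 t ht]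
  simp only [gate]
  rw [← hy]
  simp

lemma ae_good : ∀ᵐ U ∂labels d, Good U := by
  refine ae_all_iff.2 fun v => ?_
  set s : ℕ → Set ((grid d).edgeSet → unitInterval) := fun j =>
    ⋃ x ∈ Finset.Icc (fun i => v i - 3 ^ (j + 1)) (fun i => v i + 3 ^ (j + 1)),
      ⋃ sb : Fin d × Bool, {U | U (gate x 0 sb) ∈ {y : unitInterval | (y : ℝ) < ρ j ^ (d + 1)}} with hs
  have hb : ∀ j, labels d (s j) ≤ ENNReal.ofReal (9 ^ d * (d * 2) * (1 / 3) ^ j) := by
    intro j
    have h0 : 0 ≤ ρ j ^ (d + 1) := pow_nonneg (ρ_pos j).le _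
    have h1 : ρ j ^ (d + 1) ≤ 1 := pow_le_one₀ (ρ_pos j).le (by
      rw [ρ_eq]; exact pow_le_one₀ (by norm_num) (by norm_num))
    refine (measure_biUnion_finset_le _ _).trans ?_
    refine (Finset.sum_le_sum fun x _ => measure_iUnion_fintype_le _ _).trans ?_
    simp only [labels_eval _ (meas_lt _), vol_lt h0 h1, Finset.sum_const, Finset.card_univ,
      Fintype.card_prod, Fintype.card_fin, Fintype.card_bool, nsmul_eq_mul, Pi.card_Icc, Int.card_Icc]
    have h2 : ∀ i, (v i + 3 ^ (j + 1) + 1 - (v i - 3 ^ (j + 1))).toNat ≤ 9 * 3 ^ j := by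
      intro i
      rw [Int.toNat_le]
      have : (0 : ℤ) < 3 ^ j := by positivity
      push_cast
      rw [pow_succ]; omega
    have h3 : ∏ i, (v i + 3 ^ (j + 1) + 1 - (v i - 3 ^ (j + 1))).toNat ≤ (9 * 3 ^ j) ^ d := by
      calc _ ≤ ∏ _i : Fin d, 9 * 3 ^ j := Finset.prod_le_prod' fun i _ => h2 i
        _ = _ := by simp
    calc _ ≤ (((9 * 3 ^ j) ^ d : ℕ) : ℝ≥0∞) * (((d * 2 : ℕ) : ℝ≥0∞) * ENNReal.ofReal (ρ j ^ (d + 1))) := by
          gcongr
      _ = _ := by
          rw [← ENNReal.ofReal_natCast, ← ENNReal.ofReal_natCast (d * 2),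
            ← ENNReal.ofReal_mul (Nat.cast_nonneg _), ← ENNReal.ofReal_mul (Nat.cast_nonneg _)]
          congr 1
          rw [ρ_eq]
          push_cast
          have : ((3 : ℝ) ^ j) ^ d * ((1 / 3) ^ j) ^ d = 1 := by
            rw [← mul_pow, ← mul_pow]; norm_num
          rw [mul_pow, pow_succ]
          linear_combination (9 ^ d * (d * 2) * (1 / 3) ^ j : ℝ) * this
  have hsum : ∑' j, labels d (s j) ≠ ∞ := by
    refine ne_top_of_le_ne_top ?_ (ENNReal.tsum_le_tsum hb)
    exact ((summable_geometric_of_lt_one (by norm_num) (by norm_num)).mul_left _).tsum_ofReal_ne_top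
  filter_upwards [ae_eventually_notMem hsum] with U hU
  filter_upwards [hU] with j hj e he
  obtain ⟨x, hx, hx'⟩ := he
  obtain ⟨sb, rfl⟩ := edge_eq_gate e hx
  by_contra h
  apply hj
  simp only [hs, Set.mem_iUnion]
  refine ⟨x, Finset.mem_Icc.2 ⟨fun i => ?_, fun i => ?_⟩, sb, not_le.1 h⟩ <;>
    have := abs_le.1 (hx' i) <;> simp only <;> omega

lemma cont_M (e : Sym2 (Fin d → ℤ)) (i : Fin d) : Continuous fun c : Fin d → K => M e c i := by
  induction e using Sym2.ind with
  | _ x y => simp only [M, Sym2.lift_mk]; fun_prop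

lemma cont_al (e : Sym2 (Fin d → ℤ)) : Continuous fun c : Fin d → K => al e c :=
  (continuous_pi fun i => (cont_M e i).mul continuous_const).norm

lemma cont_be (e : Sym2 (Fin d → ℤ)) : Continuous fun c : Fin d → K => be e c :=
  (continuous_pi fun i => (cont_M e i).mul continuous_const).norm

lemma cont_rr (e : Sym2 (Fin d → ℤ)) : Continuous fun c : Fin d → K => rr e c :=
  (((cont_al e).min (cont_be e)).pow _).div_const _

lemma meas_X : Measurable (X (d := d)) := by
  refine measurable_pi_lambda _ fun e => measurable_to_bool ?_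
  have : (fun z => X z e) ⁻¹' {true} =
      {z | be e.1 z.1 ≤ al e.1 z.1 ↔ rr e.1 z.1 ≤ (z.2 e : ℝ)} := by
    ext z; simp [X]
  rw [this]
  refine MeasurableSet.iff (measurableSet_le ((cont_be _).measurable.comp measurable_fst)
    ((cont_al _).measurable.comp measurable_fst))
    (measurableSet_le ((cont_rr _).measurable.comp measurable_fst) ?_)
  exact measurable_subtype_coe.comp ((measurable_pi_apply e).comp measurable_snd)

def Rn (ω : Config d) : ℕ → (Fin d → ℤ) → (Fin d → ℤ) → Prop
  | 0, v, w => v = w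
  | n + 1, v, w => ∃ y, (openGraph ω).Adj v y ∧ Rn ω n y w

lemma reach_iff (ω : Config d) (v w : Fin d → ℤ) : (openGraph ω).Reachable v w ↔ ∃ n, Rn ω n v w := by
  constructor
  · rintro ⟨p⟩
    induction p with
    | nil => exact ⟨0, rfl⟩
    | cons h _ ih => obtain ⟨n, hn⟩ := ih; exact ⟨n + 1, _, h, hn⟩
  · rintro ⟨n, hn⟩
    induction n generalizing v with
    | zero => rw [show v = w from hn]
    | succ n ih => obtain ⟨y, h1, h2⟩ := hn; exact h1.reachable.trans (ih y h2)

lemma meas_open (e : (grid d).edgeSet) (b : Bool) : MeasurableSet {ω : Config d | ω e = b} :=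
  (measurable_pi_apply (X := fun _ : (grid d).edgeSet => Bool) e) (measurableSet_singleton b)

lemma meas_Rn (n : ℕ) : ∀ v w : Fin d → ℤ, MeasurableSet {ω : Config d | Rn ω n v w} := by
  induction n with
  | zero => intro v w; exact MeasurableSet.const _
  | succ n ih =>
    intro v w
    simp only [Rn, open_adj, Set.setOf_exists]
    refine MeasurableSet.iUnion fun y => MeasurableSet.inter ?_ (ih y w)
    show MeasurableSet {ω : Config d | ∃ h : (grid d).Adj v y, ω ⟨s(v, y), h⟩ = true}
    rw [Set.setOf_exists]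
    exact MeasurableSet.iUnion fun h => meas_open _ _

lemma meas_inf : MeasurableSet {ω : Config d | HasInfiniteCluster ω} := by
  have : {ω : Config d | HasInfiniteCluster ω} =
      ⋃ v, ⋂ F : Finset (Fin d → ℤ), ⋃ w, ⋃ _ : w ∉ F, ⋃ n, {ω | Rn ω n v w} := by
    ext ω
    simp only [HasInfiniteCluster, Set.mem_setOf_eq, Set.mem_iUnion, Set.mem_iInter, ← reach_iff]
    refine exists_congr fun v => ⟨fun h F => ?_, fun h hfin => ?_⟩
    · obtain ⟨w, h1, h2⟩ := h.exists_notMem_finset F
      exact ⟨w, h2, h1⟩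
    · obtain ⟨w, h1, h2⟩ := h hfin.toFinset
      exact h1 (hfin.mem_toFinset.2 h2)
  rw [this]
  exact MeasurableSet.iUnion fun v => MeasurableSet.iInter fun F => MeasurableSet.iUnion fun w =>
    MeasurableSet.iUnion fun _ => MeasurableSet.iUnion fun n => meas_Rn n v w

lemma meas_thin (p : ℝ) :
    Measurable fun z : Config d × ((grid d).edgeSet → unitInterval) => thin p z.1 z.2 := by
  refine measurable_pi_lambda _ fun e => measurable_to_bool ?_
  have : (fun z : Config d × ((grid d).edgeSet → unitInterval) => thin p z.1 z.2 e) ⁻¹' {true} =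
      Prod.fst ⁻¹' {ω | ω e = true} ∩ (fun z : Config d × ((grid d).edgeSet → unitInterval) => z.2 e) ⁻¹'
        {x : unitInterval | (x : ℝ) < p} := by
    ext z; simp [thin]
  rw [this]
  exact (measurable_fst (meas_open e true)).inter
    (((measurable_pi_apply e).comp measurable_snd) (meas_lt p))

lemma ae_removed {ι : Type} [Fintype ι] (g : ℕ → ι → (grid d).edgeSet)
    (hg : ∀ e, ∀ᶠ j in atTop, ∀ i, g j i ≠ e) {p : ℝ} (hp : p < 1) (J : ℕ) :
    ∀ᵐ η ∂labels d, ∃ j, J ≤ j ∧ ∀ i, p ≤ (η (g j i) : ℝ) := by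
  classical
  set Γ : ℕ → Finset (grid d).edgeSet := fun j => Finset.univ.image (g j) with hΓ
  have : Std.Symm (fun j k : ℕ => Disjoint (Γ j) (Γ k)) := ⟨fun _ _ h => h.symm⟩
  obtain ⟨f, hf1, hf2⟩ := exists_seq_of_forall_finset_exists' (fun j => J ≤ j)
    (fun j k => Disjoint (Γ j) (Γ k)) (by
      intro s _
      have h1 : ∀ᶠ j in atTop, ∀ e ∈ s.biUnion Γ, ∀ i, g j i ≠ e :=
        (eventually_all_finset _).2 fun e _ => hg e
      obtain ⟨j, hj1, hj2⟩ := (h1.and (eventually_ge_atTop J)).exists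
      refine ⟨j, hj2, fun k hk => Finset.disjoint_left.2 fun e he he' => ?_⟩
      obtain ⟨i, -, hi⟩ := Finset.mem_image.1 he'
      exact hj1 e (Finset.mem_biUnion.2 ⟨k, hk, he⟩) i hi)
  set q := max p 0 with hq
  have hq0 : 0 ≤ q := le_max_right _ _
  have hq1 : q < 1 := max_lt hp one_pos
  set T : Set unitInterval := {x | q ≤ (x : ℝ)} with hT
  set s : ℕ → Set ((grid d).edgeSet → unitInterval) := fun n => Set.pi (Γ (f n)) fun _ => T with hs
  have hm : ∀ n, MeasurableSet (s n) := fun n =>
    MeasurableSet.pi (Finset.countable_toSet _) fun _ _ => meas_ge q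
  have hval : ∀ F : Finset (grid d).edgeSet, labels d (Set.pi F fun _ => T) = ∏ _e ∈ F, volume T :=
    fun F => Measure.infinitePi_pi _ fun _ _ => meas_ge q
  have hind : iIndepSet s (labels d) := by
    rw [iIndepSet_iff_meas_biInter hm]
    intro S
    have h1 : ⋂ n ∈ S, s n = Set.pi (S.biUnion fun n => Γ (f n)) fun _ => T := by
      ext U
      simp only [hs, Set.mem_iInter, Set.mem_pi, Finset.mem_coe, Finset.mem_biUnion]
      exact ⟨fun h e ⟨n, hn, he⟩ => h n hn e he, fun h n hn e he => h e ⟨n, hn, he⟩⟩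
    rw [h1, hval, Finset.prod_biUnion fun a _ b _ hab => hf2 hab]
    exact Finset.prod_congr rfl fun n _ => (hval _).symm
  have hT0 : volume T ≠ 0 := by
    rw [hT, vol_ge hq0 hq1.le]; simpa using hq1
  have hlow : ∀ n, volume T ^ Fintype.card ι ≤ labels d (s n) := by
    intro n
    rw [hs]; simp only
    rw [hval, Finset.prod_const]
    exact pow_le_pow_right_of_le_one' prob_le_one (Finset.card_image_le.trans (by simp))
  have hsum : ∑' n, labels d (s n) = ∞ := by
    refine top_le_iff.1 (le_trans (le_of_eq ?_) (ENNReal.tsum_le_tsum hlow))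
    exact (ENNReal.tsum_const_eq_top_of_ne_zero (pow_ne_zero _ hT0)).symm
  have h1 := (mem_ae_iff_prob_eq_one (MeasurableSet.measurableSet_limsup hm)).2
    (measure_limsup_eq_one hm hind hsum)
  filter_upwards [h1] with η hη
  obtain ⟨n, hn⟩ := (mem_limsup_iff_frequently_mem.1 hη).exists
  exact ⟨f n, hf1 n, fun i => (le_max_left _ _).trans
    (hn (g (f n) i) (Finset.mem_coe.2 (Finset.mem_image_of_mem _ (Finset.mem_univ i))))⟩

lemma ae_noperc (hd : 2 ≤ d) {c : Fin d → K} {U : (grid d).edgeSet → unitInterval} (hc : Generic c)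
    (hU : Good U) {p : ℝ} (hp : p < 1) :
    ∀ᵐ η ∂labels d, ¬ HasInfiniteCluster (thin p (X (c, U)) η) := by
  simp only [HasInfiniteCluster, not_exists, Set.not_infinite]
  refine ae_all_iff.2 fun v => ?_
  choose z hz using fun j => exists_center j v c
  obtain ⟨J, hJ⟩ := eventually_atTop.1 (hU v)
  have h := ae_removed (fun j sb => gate (z j) (hh j) sb) (fun e => ?_) hp J
  · filter_upwards [h] with η ⟨j, hj1, hj2⟩
    exact blocked (hz j) (hJ j hj1) hj2
  · filter_upwards [ρ_tendsto.eventually (gt_mem_nhds (rr_pos hd hc e).1)] with j hj sb hsb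
    have := al_gate (hz j) sb
    rw [hsb] at this
    exact absurd hj (not_lt.2 this)

lemma norm_perm (σ : Equiv.Perm (Fin d)) (ε : Fin d → ℤ) (hε : ∀ j, ε j ^ 2 = 1) (v : Fin d → K) :
    ‖fun j => ((ε j : ℤ) : K) * v (σ j)‖ = ‖v‖ := by
  have h1 : ∀ j, ‖((ε j : ℤ) : K)‖ = 1 := by
    intro j
    rcases sq_eq_one_iff.1 (hε j) with h | h <;> rw [h] <;> simp
  refine eq_of_forall_ge_iff fun r => ?_
  rcases lt_or_ge r 0 with hr | hr
  · exact ⟨fun h => absurd (h.trans_lt hr) (not_lt.2 (norm_nonneg _)),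
      fun h => absurd (h.trans_lt hr) (not_lt.2 (norm_nonneg _))⟩
  · rw [pi_norm_le_iff_of_nonneg hr, pi_norm_le_iff_of_nonneg hr]
    simp only [norm_mul, h1, one_mul]
    exact ⟨fun h i => by simpa using h (σ.symm i), fun h j => h _⟩

noncomputable def P (d : ℕ) : Measure ((Fin d → K) × ((grid d).edgeSet → unitInterval)) :=
  (H d).prod (labels d)

instance instP : IsProbabilityMeasure (P d) := by unfold P; infer_instance

lemma invariant : Invariant ((P d).map X) := by
  intro φ
  obtain ⟨σ, ε, hε, hφ⟩ := auto_form φ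
  set T : (Fin d → K) → (Fin d → K) := fun c j => ((φ 0 j : ℤ) : K) + ((ε j : ℤ) : K) * c (σ j) with hT
  set S : ((grid d).edgeSet → unitInterval) → ((grid d).edgeSet → unitInterval) :=
    fun U e => U (φ.mapEdgeSet.symm e) with hS
  have hTm : MeasurePreserving T (H d) (H d) := by
    have h1 : MeasurePreserving (fun (c : Fin d → K) j => c (σ j)) (H d) (H d) :=
      ⟨by fun_prop, Measure.map_infinitePi_infinitePi_of_inj (P := fun _ : Fin d => H1) σ.injective⟩
    have h2 : ∀ j, MeasurePreserving (fun x : K => ((φ 0 j : ℤ) : K) + ((ε j : ℤ) : K) * x) H1 H1 := by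
      intro j
      rcases sq_eq_one_iff.1 (hε j) with h | h <;> rw [h]
      · simpa using measurePreserving_add_left H1 ((φ 0 j : ℤ) : K)
      · have := (measurePreserving_add_left H1 ((φ 0 j : ℤ) : K)).comp (Measure.measurePreserving_neg H1)
        simpa [Function.comp_def] using this
    have h3 : MeasurePreserving (fun (c : Fin d → K) j => ((φ 0 j : ℤ) : K) + ((ε j : ℤ) : K) * c j)
        (H d) (H d) := by
      refine ⟨measurable_pi_lambda _ fun j => (h2 j).measurable.comp (measurable_pi_apply j), ?_⟩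
      have := Measure.infinitePi_map_pi (fun _ : Fin d => H1) fun j => (h2 j).measurable
      simp only [fun j => (h2 j).map_eq] at this
      exact this
    exact h3.comp h1
  have hSm : MeasurePreserving S (labels d) (labels d) :=
    ⟨by fun_prop, Measure.map_infinitePi_infinitePi_of_inj
      (P := fun _ : (grid d).edgeSet => (volume : Measure unitInterval)) φ.mapEdgeSet.symm.injective⟩
  have hTS : MeasurePreserving (Prod.map T S) (P d) (P d) := hTm.prod hSm
  have hact : Measurable fun (ω : Config d) e => ω (φ.mapEdgeSet e) := by fun_prop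
  have key : ((fun (ω : Config d) e => ω (φ.mapEdgeSet e)) ∘ X) ∘ Prod.map T S = X := by
    funext ⟨c, U⟩ e
    have hM : ∀ j, M (φ.mapEdgeSet e).1 (T c) j = ((ε j : ℤ) : K) * M e.1 c (σ j) ∧
        D (φ.mapEdgeSet e).1 j = D e.1 (σ j) := by
      intro j
      obtain ⟨e, he⟩ := e
      induction e using Sym2.ind with
      | _ x y =>
      have : (φ.mapEdgeSet ⟨s(x, y), he⟩).1 = s(φ x, φ y) := rfl
      rw [this]
      simp only [M, D, Sym2.lift_mk, hT, hφ x j, hφ y j]
      constructor
      · push_cast; ring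
      · linear_combination (x (σ j) - y (σ j)) ^ 2 * hε j
    have h1 : al (φ.mapEdgeSet e).1 (T c) = al e.1 c := by
      unfold al
      rw [← norm_perm σ ε hε (fun i => M e.1 c i * ((D e.1 i : ℤ) : K))]
      congr 1; funext j; rw [(hM j).1, (hM j).2, mul_assoc]
    have h2 : be (φ.mapEdgeSet e).1 (T c) = be e.1 c := by
      unfold be
      rw [← norm_perm σ ε hε (fun i => M e.1 c i * ((1 - D e.1 i : ℤ) : K))]
      congr 1; funext j; rw [(hM j).1, (hM j).2, mul_assoc]
    show X (T c, S U) (φ.mapEdgeSet e) = X (c, U) e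
    unfold X
    rw [decide_eq_decide]
    simp only [rr, h1, h2, hS, Equiv.symm_apply_apply]
  rw [Measure.map_map hact meas_X]
  conv_lhs => rw [← hTS.map_eq]
  rw [Measure.map_map (hact.comp meas_X) hTS.measurable, key]

lemma sigma_le (e : (grid d).edgeSet) : sigmaOff e ≤ (inferInstance : MeasurableSpace (Config d)) :=
  Measurable.comap_le (by fun_prop)

lemma null_of_inter (hd : 2 ≤ d) (e : (grid d).edgeSet) (b : Bool) {A : Set (Config d)}
    (hA : MeasurableSet[sigmaOff e] A) (h : (P d).map X (A ∩ {ω | ω e = b}) = 0) :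
    (P d).map X A = 0 := by
  have hA' : MeasurableSet A := sigma_le e A hA
  rw [Measure.map_apply meas_X (hA'.inter (meas_open e b)), P,
    Measure.measure_prod_null (meas_X (hA'.inter (meas_open e b)))] at h
  rw [Measure.map_apply meas_X hA', P, Measure.measure_prod_null (meas_X hA')]
  filter_upwards [h, ae_generic] with c hc hgen
  simp only [Pi.zero_apply] at hc ⊢
  obtain ⟨A', hA'm, rfl⟩ := hA
  set m : (grid d).edgeSet → MeasurableSpace ((grid d).edgeSet → unitInterval) :=
    fun i => MeasurableSpace.comap (fun U => U i) inferInstance with hm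
  have hind : iIndep m (labels d) :=
    (iIndepFun_iff_iIndep _ _ _).1 (iIndepFun_infinitePi
      (P := fun _ : (grid d).edgeSet => (volume : Measure unitInterval)) (X := fun _ x => x)
      fun _ => measurable_id)
  have hI := (Indep_iff _ _ _).1 (indep_iSup_of_disjoint (fun i => (measurable_pi_apply i).comap_le) hind
    (S := {e}ᶜ) (T := {e}) disjoint_compl_left)
  set B : (grid d).edgeSet → Set unitInterval := fun f =>
    {x | be f.1 c ≤ al f.1 c ↔ rr f.1 c ≤ (x : ℝ)} with hB
  have hBm : ∀ f, MeasurableSet (B f) := fun f => MeasurableSet.iff (MeasurableSet.const _) (meas_ge _)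
  set T : Set unitInterval := if b then B e else (B e)ᶜ with hT
  have hTm : MeasurableSet T := by
    rw [hT]; split_ifs
    exacts [hBm e, (hBm e).compl]
  have hT0 : volume T ≠ 0 := by
    have h0 := (rr_pos hd hgen e).2
    have h1 := rr_le e.1 c
    have v1 : volume {x : unitInterval | (x : ℝ) < rr e.1 c} ≠ 0 := by
      rw [vol_lt h0.le (by linarith)]; simpa using h0
    have v2 : volume {x : unitInterval | rr e.1 c ≤ (x : ℝ)} ≠ 0 := by
      rw [vol_ge h0.le (by linarith)]; simp only [ne_eq, ENNReal.ofReal_eq_zero, not_le]; linarith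
    by_cases hg : be e.1 c ≤ al e.1 c <;> cases b
    · convert v1 using 2; ext x; simp [hT, hB, hg]
    · convert v2 using 2; ext x; simp [hT, hB, hg]
    · convert v2 using 2; ext x; simp [hT, hB, hg]
    · convert v1 using 2; ext x; simp [hT, hB, hg]
  have h1 : MeasurableSet[⨆ i ∈ ({e}ᶜ : Set (grid d).edgeSet), m i]
      ((fun (U : (grid d).edgeSet → unitInterval) (f : {f : (grid d).edgeSet // f ≠ e}) =>
        X (c, U) f) ⁻¹' A') := by
    refine (@measurable_pi_lambda _ _ _ (⨆ i ∈ ({e}ᶜ : Set (grid d).edgeSet), m i) _ _ fun f => ?_) hA'm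
    refine @measurable_to_bool _ (⨆ i ∈ ({e}ᶜ : Set (grid d).edgeSet), m i) _ ?_
    refine le_iSup₂ (f := fun i (_ : i ∈ ({e}ᶜ : Set (grid d).edgeSet)) => m i) f.1 f.2 _ ?_
    exact ⟨B f, hBm f, by ext U; simp [X, hB]⟩
  have h2 : MeasurableSet[⨆ i ∈ ({e} : Set (grid d).edgeSet), m i] {U | U e ∈ T} :=
    le_iSup₂ (f := fun i (_ : i ∈ ({e} : Set (grid d).edgeSet)) => m i) e rfl _ ⟨T, hTm, rfl⟩
  have h3 := hI _ _ h1 h2
  rw [labels_eval e hTm] at h3
  have h4 : (fun (U : (grid d).edgeSet → unitInterval) (f : {f : (grid d).edgeSet // f ≠ e}) =>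
        X (c, U) f) ⁻¹' A' ∩ {U | U e ∈ T} = Prod.mk c ⁻¹' (X ⁻¹' ((fun (ω : Config d)
          (f : {f : (grid d).edgeSet // f ≠ e}) => ω f) ⁻¹' A' ∩ {ω | ω e = b})) := by
    ext U
    simp only [Set.mem_inter_iff, Set.mem_preimage, Set.mem_setOf_eq]
    refine and_congr Iff.rfl ?_
    cases b <;> simp [hT, hB, X]
  rw [h4, hc] at h3
  exact (mul_eq_zero.1 h3.symm).resolve_right hT0

lemma cond_pos {μ : Measure (Config d)} [IsProbabilityMeasure μ] (e : (grid d).edgeSet) (b : Bool)
    (h : ∀ A, MeasurableSet[sigmaOff e] A → μ (A ∩ {ω | ω e = b}) = 0 → μ A = 0) :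
    ∀ᵐ ω ∂μ, 0 < condExp (sigmaOff e) μ (Set.indicator {ω' | ω' e = b} fun _ => (1 : ℝ)) ω := by
  rw [ae_iff]
  simp only [not_lt]
  have hA : MeasurableSet[sigmaOff e]
      {ω | condExp (sigmaOff e) μ (Set.indicator {ω' | ω' e = b} fun _ => (1 : ℝ)) ω ≤ 0} :=
    (stronglyMeasurable_condExp (m := sigmaOff e) (μ := μ)
      (f := Set.indicator {ω' : Config d | ω' e = b} fun _ => (1 : ℝ))).measurable
        (measurableSet_Iic (a := (0 : ℝ)))
  refine h _ hA ?_
  have h1 := setIntegral_condExp (sigma_le e)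
    ((integrable_const (1 : ℝ) (μ := μ)).indicator (meas_open e b)) hA
  have h2 := setIntegral_nonpos (μ := μ) (sigma_le e _ hA) fun ω hω => hω
  rw [h1, setIntegral_indicator (meas_open e b), setIntegral_const, smul_eq_mul, mul_one] at h2
  exact (measureReal_eq_zero_iff (measure_ne_top _ _)).1 (le_antisymm h2 measureReal_nonneg)

lemma finiteEnergy (hd : 2 ≤ d) : FiniteEnergy ((P d).map X) := by
  intro e
  have : IsProbabilityMeasure ((P d).map X) := Measure.isProbabilityMeasure_map meas_X.aemeasurable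
  have h1 := cond_pos e true fun A hA => null_of_inter hd e true hA
  have h2 := cond_pos e false fun A hA => null_of_inter hd e false hA
  have h3 := condExp_add ((integrable_const (1 : ℝ) (μ := (P d).map X)).indicator (meas_open e true))
    ((integrable_const (1 : ℝ) (μ := (P d).map X)).indicator (meas_open e false)) (sigmaOff e)
  have h4 : (Set.indicator {ω' : Config d | ω' e = true} fun _ => (1 : ℝ)) +
      (Set.indicator {ω' : Config d | ω' e = false} fun _ => (1 : ℝ)) = fun _ => 1 := by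
    funext ω
    cases hω : ω e <;> simp [Set.indicator, hω]
  rw [h4, condExp_const (sigma_le e)] at h3
  filter_upwards [h1, h2, h3] with ω a1 a2 a3
  simp only [Pi.add_apply] at a3
  exact ⟨a1, by linarith⟩

lemma ae_both : ∀ᵐ z ∂P d, Generic z.1 ∧ Good z.2 :=
  (Measure.quasiMeasurePreserving_fst.ae ae_generic).and (Measure.quasiMeasurePreserving_snd.ae ae_good)

end prob

/-- For every `d ≥ 2` there is an automorphism-invariant finite energy bond percolation on `ℤ^d`
that percolates almost surely while every `p`-thinning with `p < 1` almost surely has no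
infinite cluster. -/
theorem result (d : ℕ) (hd : 2 ≤ d) : ∃ μ : Measure (Config d), IsProbabilityMeasure μ ∧
    Invariant μ ∧ FiniteEnergy μ ∧ (∀ᵐ ω ∂μ, HasInfiniteCluster ω) ∧
    ∀ p : ℝ, p < 1 → ∀ᵐ z ∂(μ.prod (labels d)), ¬ HasInfiniteCluster (thin p z.1 z.2) := by
  refine ⟨(P d).map X, Measure.isProbabilityMeasure_map meas_X.aemeasurable, invariant,
    finiteEnergy hd, ?_, fun p hp => ?_⟩
  · rw [ae_map_iff meas_X.aemeasurable meas_inf]
    filter_upwards [ae_both] with z hz
    exact perc hd hz.1 hz.2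
  · have hm : MeasurableSet {z : Config d × ((grid d).edgeSet → unitInterval) |
        ¬ HasInfiniteCluster (thin p z.1 z.2)} := (meas_thin p meas_inf).compl
    have h1 : ((P d).map X).prod (labels d) = ((P d).prod (labels d)).map (Prod.map X id) := by
      rw [← Measure.map_prod_map _ _ meas_X measurable_id, Measure.map_id]
    rw [h1, ae_map_iff (meas_X.prodMap measurable_id).aemeasurable hm]
    refine (Measure.ae_prod_iff_ae_ae ((meas_X.prodMap measurable_id) hm)).2 ?_
    filter_upwards [ae_both] with z hz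
    exact ae_noperc hd hz.1 hz.2 hp

end Pool.Agent.Results.MP_cc1c4a_pr.Exists
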